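import Pool.Agent.LeadSN.Stm
import Pool.Agent.Y282.RB.C0

set_option autoImplicit false

open Pool.Agent.Y282.RB

namespace Pool.Agent.LeadSN

/-- assembly: the pointwise inequality from the two cases `γ 0 ≤ 1` and `γ 0 > 1` -/
theorem star_of (hLO : P_LO) (hHI : P_HI) : ∀ (n : ℕ) (p : ℝ), 1 ≤ n → 100 * (n : ℝ) ^ 2 ≤ p →
    Star n p := by
  intro n p hn hp
  have h1 : (1 : ℝ) ≤ (n : ℝ) := by exact_mod_cast hn
  have h2 : (2 : ℝ) < p := by nlinarith
  refine C0.main n p hn h2 ?_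
  intro γ hL h0 hor
  rcases hor with h | h
  · exact hLO n p γ hn hp hL h0 h
  · rcases le_total (γ 0) 1 with h' | h'
    · exact hLO n p γ hn hp hL h0 h'
    · exact hHI n p γ hn hp hL h' h

end Pool.Agent.LeadSN
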