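import Pool.Agent.LeadSN.Asm
import Pool.Agent.W2helper10.SN.HI
import Pool.Agent.W2helper13.SN.UP
import Pool.Agent.W2helper16.SN.W
import Pool.Agent.W2helper16.SN.LO
import Pool.Agent.W2helper59.SN.A1
import Pool.Agent.W2helper59.SN.HS
import Pool.Agent.W2helper59.SN.ID
import Pool.Agent.W2helper54.SN.CS
import Pool.Agent.W2helper75.SN.PH
import Pool.Agent.W2helper75.SN.WT

set_option autoImplicit false

open Pool.Agent.Y282.RB

namespace Pool.Agent.LeadSN

/-- the pointwise inequality for all `n ≥ 1` and all `p ≥ 100 n ^ 2` -/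
theorem star (n : ℕ) (p : ℝ) (hn : 1 ≤ n) (hp : 100 * (n : ℝ) ^ 2 ≤ p) : Star n p := by
  have hCS : P_CS := W2helper54.SN.p_cs
  have hWT : P_WT := W2helper75.SN.p_wt
  have hPH : P_PH := W2helper75.SN.p_ph
  have hHS : P_HS := W2helper59.SN.p_hs
  have hID : P_ID := W2helper59.SN.p_id
  have hA1 : P_A1 := W2helper59.SN.s_a1 hCS hWT
  have hW : P_W := W2helper16.SN.W.p_w hHS
  have hLO : P_LO := W2helper16.SN.LO.p_lo hCS hWT hPH
  have hUP : P_UP := W2helper13.SNUP.s_up hW hID hHS hWT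
  have hHI : P_HI := W2helper10.SN.p_hi hPH hA1 hHS hWT hUP
  exact star_of hLO hHI n p hn hp

end Pool.Agent.LeadSN
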