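import Pool.Agent.Y282.RB.Stm

/-!
# Project SN (lead): `Star n p` for all `n ≥ 1` and all `p ≥ 100 n ^ 2` (problem MP_dd244f_an)

Notation: `σ = 1 / p`, `k_j = kk σ j`, `y_j = yy σ γ j`, `T = TT n γ`, `t = √T`, `x = γ 0 ≥ 0`,
`D_i = γ i - γ (i+1)`, `a = x ^ 2`, `r = p / 2`, `u = x t`, `v = n u`, `β = p (a - 1)`.

Every `P_..` below is one piece; the comment is its proof.  Write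
`theorem p_xx : P_XX` (namespace of your own, file `Pool/Agent/<your prefix>/SN/XX.lean`, importing only
this file and Mathlib; a piece of the form `P_A → P_B` takes `P_A` as a hypothesis).
-/

set_option autoImplicit false

open scoped BigOperators
open Pool.Agent.Y282.RB

namespace Pool.Agent.LeadSN

/-- `c_j = √(j ^ 2 + (j + σ) ^ 2 / (2 j + 1))` -/
noncomputable def cc (σ : ℝ) (j : ℕ) : ℝ :=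
  Real.sqrt ((j : ℝ) ^ 2 + ((j : ℝ) + σ) ^ 2 / (2 * (j : ℝ) + 1))

/-- `W_n = ∏_{j < n} (j + σ) / (j + 1 - σ)` -/
noncomputable def WW (σ : ℝ) (n : ℕ) : ℝ :=
  ∏ j ∈ Finset.range n, (((j : ℝ) + σ) / ((j : ℝ) + 1 - σ))

/-- PIECE CS (~60 lines).  `γ 0 - y_j = ∑_{i<j} D_i + (1 - θ_j) D_j` and `1 - θ_j = (j + σ) / (2 j + 1)`.
Cauchy-Schwarz with weights `2 i + 1`:
`(∑_{i<j} D_i + (1-θ_j) D_j)^2 ≤ (∑_{i<j} (2i+1) + (1-θ_j)^2 (2j+1)) * ∑_{i≤j} D_i^2/(2i+1)`, and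
`∑_{i<j} (2i+1) = j^2`, `∑_{i≤j} D_i^2/(2i+1) ≤ TT n γ` since `j < n`. -/
def P_CS : Prop := ∀ (n : ℕ) (σ : ℝ) (γ : ℕ → ℝ) (j : ℕ), j < n → 0 ≤ σ → σ ≤ 1 / 2 →
  |γ 0 - yy σ γ j| ≤ cc σ j * Real.sqrt (TT n γ)

/-- PIECE WT (~60 lines).  Elementary.  `kk σ j * cc σ j ≤ 2` for `j ≥ 1`: square it; it is
`(2j+1) * (2 j^2 (j+1) + 2 j σ + σ^2) ≤ 4 (j (j+1) + σ (1-σ))^2`, true for `j ≥ 1`, `0 ≤ σ ≤ 1/2`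
(`(j+σ)(j+1-σ) = j (j+1) + σ (1-σ)`); put `j = i + 1` and use nlinarith / positivity after expanding. -/
def P_WT : Prop := ∀ σ : ℝ, 0 < σ → σ ≤ 1 / 2 →
  kk σ 0 = 1 / (σ * (1 - σ)) ∧ cc σ 0 = σ ∧
  ∀ j : ℕ, 1 ≤ j → 0 < kk σ j ∧ 0 ≤ cc σ j ∧ kk σ j * cc σ j ≤ 2 ∧ cc σ j ≤ (j : ℝ) + 1 / 2 ∧
    kk σ j ≤ 1 / (j : ℝ) + 1 / ((j : ℝ) + 1)

/-- PIECE PH (~80 lines).  `ph r b = b ^ r - 1 - r (b - 1)`.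
(1) `(1 + β/p)^(p/2) ≤ exp (β/2)`, and `exp s - 1 - s ≤ s^2/2 * exp s`, `exp s - 1 - s ≤ exp s` for `s ≥ 0`.
(2) for `a ∈ [0,1]`, `r ≥ 2`: `a^r ≤ a` gives the first bound; the second one: `ph'' = r (r-1) a^(r-2) ≤ r (r-1)`
and `ph 1 = ph' 1 = 0` (e.g. monotonicity of `g a = r (r-1)/2 (1-a)^2 - ph r a` on `[0,1]` from the sign of the
derivative `- r (r-1) (1-a) - r (a^(r-1) - 1)`, Bernoulli `1 - a^(r-1) ≤ (r-1)(1-a)`). -/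
def P_PH : Prop :=
  (∀ p β : ℝ, 2 < p → 0 ≤ β → ph (p / 2) (1 + β / p) ≤ Real.exp (β / 2) ∧
    ph (p / 2) (1 + β / p) ≤ β ^ 2 / 8 * Real.exp (β / 2)) ∧
  ∀ p a : ℝ, 4 ≤ p → 0 ≤ a → a ≤ 1 →
    ph (p / 2) a ≤ (p / 2 - 1) * (1 - a) ∧ ph (p / 2) a ≤ (p / 2 - 1) * (p / 4 * (1 - a) ^ 2)

/-- PIECE LO (~100 lines), the case `γ 0 ≤ 1`.  Let `z = 1 - x^2 ∈ [0,1]`, `t = √(TT n γ)`.  By P_PH it is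
enough that `min z (p z^2 / 4) ≤ t^2`.  Suppose not.  `Lam = 1` is `∑ k_j y_j^2 = KK`, and `|y_j| ≤ x + c_j t`,
so `KK z ≤ 2 x t ∑ k_j c_j + t^2 ∑ k_j c_j^2 ≤ 4 n t + n^2 t^2`
(`k_0 c_0 = 1/(1-σ) ≤ 2`, `k_0 c_0^2 = σ/(1-σ) ≤ 1`, `k_j c_j ≤ 2`, `k_j c_j^2 ≤ 2 c_j ≤ 2 j + 1`,
`∑_{1≤j<n} (2j+1) = n^2 - 1`).  And `KK ≥ k_0 ≥ p`.  From `t < √p z / 2` and `t^2 < z` (so `z > 0`):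
`p z < (2 n √p + n^2) z`, but `2 n √p + n^2 ≤ p / 5 + p / 100`, contradiction (`√p ≥ 10 n`). -/
def P_LO : Prop := ∀ (n : ℕ) (p : ℝ) (γ : ℕ → ℝ), 1 ≤ n → 100 * (n : ℝ) ^ 2 ≤ p →
  Lam (1 / p) n γ = 1 → 0 ≤ γ 0 → γ 0 ≤ 1 → ph (p / 2) ((γ 0) ^ 2) ≤ (p / 2 - 1) * TT n γ

/-- PIECE A1 (~80 lines).  `u = x t`.  `y_0 = x - σ D_0`, `|x - y_0| ≤ σ t`, so `y_0^2 ≥ x^2 - 2 σ u`;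
for `j ≥ 1`: `y_j^2 ≥ x^2 - 2 c_j u ≥ 1 - 2 c_j u` (from `|x - y_j| ≤ c_j t`: `y_j^2 ≥ x^2 - 2 x |x - y_j|`) and
`y_j^2 ≥ 0`, so `k_j (1 - y_j^2) ≤ min k_j (4 u)` (by `k_j c_j ≤ 2`).  From `∑ k_j y_j^2 = KK = ∑ k_j`:
`k_0 (x^2 - 1) ≤ k_0 * 2 σ u + ∑_{1≤j<n} k_j (1 - y_j^2)`, and `p ≤ k_0`, `k_0 σ = 1 / (1 - σ)`. -/
def P_A1 : Prop := ∀ (n : ℕ) (p : ℝ) (γ : ℕ → ℝ), 1 ≤ n → 100 ≤ p →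
  Lam (1 / p) n γ = 1 → 1 ≤ γ 0 →
  p * ((γ 0) ^ 2 - 1) ≤ 2 / (1 - 1 / p) * (γ 0 * Real.sqrt (TT n γ)) +
    ∑ j ∈ Finset.Ico 1 n, min (kk (1 / p) j) (4 * (γ 0 * Real.sqrt (TT n γ)))

/-- PIECE HS (~80 lines), harmonic sums.  `J = ⌈1/u⌉`, `1 ≤ J ≤ n`.  For `j < J` use `4 u`: together
`4 u (J - 1) ≤ 4`.  For `J ≤ j < n` use `k_j ≤ 1/j + 1/(j+1)`; `∑_{J≤j<n} 1/(j+1) ≤ log (n/J)`,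
`∑_{J≤j<n} 1/j ≤ 1/J + log (n/J)`, `log (n/J) ≤ log (n u)`, `1/J ≤ 1`.
Second part: `J = 1`. -/
def P_HS : Prop := ∀ (n : ℕ) (k : ℕ → ℝ), 1 ≤ n →
  (∀ j : ℕ, 1 ≤ j → k j ≤ 1 / (j : ℝ) + 1 / ((j : ℝ) + 1)) →
  (∀ u : ℝ, 0 < u → u ≤ 1 → 1 ≤ (n : ℝ) * u →
    ∑ j ∈ Finset.Ico 1 n, min (k j) (4 * u) ≤ 5 + 2 * Real.log ((n : ℝ) * u)) ∧
  ∑ j ∈ Finset.Ico 1 n, k j ≤ 1 + 2 * Real.log (n : ℝ)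

/-- PIECE W (~100 lines; P_HS may be used).  `W_1 = σ/(1-σ)`; with `w_j = j W_j`:
`w_{j+1} = w_j (1 + σ (2j+1) / (j (j+1-σ))) ≤ w_j (1 + 2 σ)` for `j ≥ 1`, so
`w_j ≤ σ/(1-σ) (1+2σ)^(j-1) ≤ σ/(1-σ) exp (2 σ n) ≤ σ (1 + 4/(100 n))` for `1 ≤ j ≤ n`, because `σ n ≤ 1/(100 n)`.
Hence `∑_{1≤j<n} (2j+1) W_j W_{j+1} ≤ σ^2 (1+4/(100 n))^2 ∑_{1≤j<n} (1/j + 1/(j+1))`. -/
def P_W : Prop := ∀ (n : ℕ) (σ : ℝ), 1 ≤ n → 0 < σ → σ * (100 * (n : ℝ) ^ 2) ≤ 1 →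
  (∀ j : ℕ, 1 ≤ j → j ≤ n → 0 < WW σ j ∧ WW σ j ≤ σ * (1 + 1 / (25 * (n : ℝ))) / (j : ℝ)) ∧
  ∑ j ∈ Finset.range n, (2 * (j : ℝ) + 1) * WW σ j * WW σ (j + 1) ≤
    σ / (1 - σ) + σ ^ 2 * (1 + 1 / (25 * (n : ℝ))) ^ 2 * (1 + 2 * Real.log (n : ℝ))

/-- PIECE ID (~80 lines).  From `y_j = θ_j γ_j + (1-θ_j) γ_{j+1}`: `γ_j = y_j/θ_j - R_j γ_{j+1}`,
`R_j = (1-θ_j)/θ_j = (j+σ)/(j+1-σ)`, so `γ_0 = ∑_{j<n} (-1)^j W_j y_j/θ_j + (-1)^n W_n γ_n` (induction on `n`).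
Cauchy-Schwarz with `∑ k_j y_j^2 = KK`; `1/(θ_j^2 k_j) = (2j+1) R_j`, so
`∑ W_j^2/(θ_j^2 k_j) = ∑ (2j+1) W_j W_{j+1}`. -/
def P_ID : Prop := ∀ (n : ℕ) (σ : ℝ) (γ : ℕ → ℝ), 1 ≤ n → 0 < σ → σ < 1 / 2 → Lam σ n γ = 1 →
  |γ 0| ≤ Real.sqrt (KK σ n * ∑ j ∈ Finset.range n, (2 * (j : ℝ) + 1) * WW σ j * WW σ (j + 1))
    + WW σ n * |γ n|

/-- PIECE UP (~100 lines), from P_W, P_ID, P_HS, P_WT.  `x (1 - W_n) ≤ √(KK E)`, `ℓ = 1 + 2 log n`, `1 ≤ ℓ ≤ 2 n`,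
`KK ≤ 1/(σ(1-σ)) + ℓ`, `E ≤ σ/(1-σ) + σ^2 (1+1/(25n))^2 ℓ`, so
`KK E ≤ 1/(1-σ)^2 + σ ℓ (2 + 1/(4 n))`-ish `≤ 1 + 2.04 σ + 2 σ ℓ + 0.6 σ` (all corrections use `σ n ≤ 1/(100 n)`
and `ℓ ≤ 2 n`); `W_n ≤ 1.04 σ / n ≤ 1.04 σ`, `(1-W_n)^(-2) ≤ 1 + 2.1 σ`.  Total
`p (x^2 - 1) ≤ 2 ℓ + 5 = 4 log n + 7` (true value at most `4 log n + 4.2`). -/
def P_UP : Prop := ∀ (n : ℕ) (p : ℝ) (γ : ℕ → ℝ), 1 ≤ n → 100 * (n : ℝ) ^ 2 ≤ p →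
  Lam (1 / p) n γ = 1 → 0 ≤ γ 0 → (γ n) ^ 2 ≤ (γ 0) ^ 2 →
  p * ((γ 0) ^ 2 - 1) ≤ 4 * Real.log (n : ℝ) + 7

/-- PIECE HI (~120 lines), the case `γ 0 ≥ 1`, from P_PH, P_A1, P_HS, P_WT, P_UP.  `u = x t`, `v = n u`,
`β = p (x^2 - 1) ≥ 0`, `x^2 = 1 + β/p`, `p/2 - 1 ≥ 49 n^2`, and `x^2 ≤ 1 + (4 log n + 7)/p ≤ 1.11` by P_UP.
Claim `ph ≤ 37 v^2 = 37 n^2 x^2 T`; then `37 * 1.11 ≤ 49`.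
* `v ≤ 5/4`: `β ≤ 2/(1-σ) u + 4 (n-1) u ≤ 4 v ≤ 5`, `ph ≤ β^2/8 exp (β/2) ≤ 2 v^2 exp (5/2) ≤ 25 v^2`.
* `v > 5/4`, `u ≤ 1`: `β ≤ 2.03 + 5 + 2 log v`, `ph ≤ exp (β/2) ≤ exp 3.515 * v ≤ 34 v ≤ 28 v^2`.
* `u > 1`: P_UP: `ph ≤ exp (β/2) ≤ exp 3.5 n^2 ≤ 34 n^2 ≤ 34 v^2`. -/
def P_HI : Prop := ∀ (n : ℕ) (p : ℝ) (γ : ℕ → ℝ), 1 ≤ n → 100 * (n : ℝ) ^ 2 ≤ p →
  Lam (1 / p) n γ = 1 → 1 ≤ γ 0 → (γ n) ^ 2 ≤ (γ 0) ^ 2 →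
  ph (p / 2) ((γ 0) ^ 2) ≤ (p / 2 - 1) * TT n γ

/-! The implications to be proved as pieces -/

def S_W : Prop := P_HS → P_W
def S_LO : Prop := P_CS → P_WT → P_PH → P_LO
def S_A1 : Prop := P_CS → P_WT → P_A1
def S_UP : Prop := P_W → P_ID → P_HS → P_WT → P_UP
def S_HI : Prop := P_PH → P_A1 → P_HS → P_WT → P_UP → P_HI

end Pool.Agent.LeadSN
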